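import Pool.Agent.Y560.TF.GeS

/-!
Project TF, job GD: an isomorphism of classes which preserves the label of a good element preserves
all labels.
-/

set_option autoImplicit false
set_option linter.unusedSectionVars false

namespace Pool.Agent.Y960.TF

open Pool.Agent.Y560.TF.Ge

section one

variable {Γ X : Type} [Group Γ] [PartialOrder X] [MulAction Γ X] [Tr Γ X]

/-- an element above `p` but not above `q` has the reduced label of `p` -/
theorem rl_of_sep {u p q x : X} (h : SL Γ u p q) (hp : p ≤ x) (hq : ¬ q ≤ x) : RL Γ u p x := by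
  refine ⟨fun γ => ⟨fun h1 => h1.trans hp, fun h1 => ?_⟩,
    fun γ => ⟨fun ⟨r, h1, h2⟩ => ⟨r, h1.trans hp, h2⟩, fun ⟨r, h1, h2⟩ => ?_⟩,
    fun γ δ => ⟨fun ⟨r, h1, h2⟩ => ⟨r, h1.trans hp, h2⟩, fun ⟨r, h1, h2, h3⟩ => ?_⟩⟩
  · rcases cmp Γ h1 hp with h2 | h2
    · exact h2
    · exact absurd (((h.b γ).1 h2).trans h1) hq
  · rcases cmp Γ h1 hp with h3 | h3
    · exact ⟨r, h3, h2⟩
    · exact ⟨p, le_rfl, h3.trans h2⟩
  · rcases cmp Γ h1 hp with h4 | h4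
    · exact ⟨r, h4, h2, h3⟩
    · by_cases h5 : p ≤ δ • u
      · exfalso
        have h6 := (h.b δ).1 h5
        have h7 := (h.b γ).1 (h4.trans h2)
        rcases cmp Γ h7 h2 with h8 | h8
        · exact hq (h8.trans h1)
        · exact h3 (h8.trans h6)
      · exact ⟨p, le_rfl, h4.trans h2, h5⟩

/-- elements above a common element which is not in `D` have the same label -/
theorem sl_of_above {u r y z : X} (hr : ¬ DD Γ u r) (hy : r ≤ y) (hz : r ≤ z) : SL Γ u y z := by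
  have key : ∀ {y z : X}, r ≤ y → r ≤ z → ∀ s : X, s ≤ y → DD Γ u s → s ≤ z := by
    intro y z hy hz s hs hd
    rcases cmp Γ hs hy with h1 | h1
    · exact h1.trans hz
    · exact absurd (hd.le h1) hr
  have dd : ∀ γ : Γ, DD Γ u (γ • u) := fun γ => ⟨γ, le_rfl⟩
  refine ⟨⟨fun γ => ⟨fun h => key hy hz _ h (dd γ), fun h => key hz hy _ h (dd γ)⟩,
    fun γ => ⟨fun ⟨s, h1, h2⟩ => ⟨s, key hy hz _ h1 ⟨γ, h2⟩, h2⟩,
      fun ⟨s, h1, h2⟩ => ⟨s, key hz hy _ h1 ⟨γ, h2⟩, h2⟩⟩,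
    fun γ δ => ⟨fun ⟨s, h1, h2⟩ => ⟨s, key hy hz _ h1 ⟨γ, h2.1⟩, h2⟩,
      fun ⟨s, h1, h2⟩ => ⟨s, key hz hy _ h1 ⟨γ, h2.1⟩, h2⟩⟩⟩,
    fun γ => ⟨fun h => absurd ⟨γ, hy.trans h⟩ hr, fun h => absurd ⟨γ, hz.trans h⟩ hr⟩⟩

/-- the part `b` of the label of an element separated from `q` -/
theorem b_of_sep {u x0 x : X} {γ δ : Γ} (h : SL Γ u (γ • x0) (δ • x0)) (hp : γ • x0 ≤ x)
    (hq : ¬ δ • x0 ≤ x) (η : Γ) :
    x ≤ η • u ↔ γ • x0 ≤ η • u ∧ ∃ ρ : Γ, SL Γ u (ρ • x0) (γ • x0) ∧ x ≤ ρ • x0 := by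
  constructor
  · intro h1
    have h2 := hp.trans h1
    have h3 := (h.b η).1 h2
    refine ⟨h2, δ, h.symm, ?_⟩
    rcases cmp Γ h3 h1 with h4 | h4
    · exact absurd h4 hq
    · exact h4
  · rintro ⟨h1, ρ, h2, h3⟩
    exact h3.trans ((h2.b η).2 h1)

/-- if `x0` separates two translates of `s` then it separates two translates of itself -/
theorem in_self {u s x0 : X} (hd : DD Γ u x0) (h : IN Γ u s x0) : IN Γ u x0 x0 := by
  obtain ⟨γ, δ, h1, h2, h3⟩ := h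
  have h4 := h1.cmp_lt hd h2 h3
  have h5 := h1.mid h2 h4.le
  have h6 : (δ * γ⁻¹) • γ • s = δ • s := by
    rw [← mul_smul, inv_mul_cancel_right]
  have h7 := h5.smul (δ * γ⁻¹)
  rw [h6] at h7
  refine ⟨1, δ * γ⁻¹, ?_, ?_, fun h8 => h3 ?_⟩
  · rw [one_smul]
    exact h5.symm.trans (h1.trans h7)
  · rw [one_smul]
  · refine le_trans ?_ h8
    rw [← h6]
    exact sle.2 h2

end one

section two

variable {Γ X X' : Type} [Group Γ] [PartialOrder X] [MulAction Γ X] [Tr Γ X]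
  [PartialOrder X'] [MulAction Γ X'] [Tr Γ X']

theorem le_smul {u x : X} {u' x' : X'} (h : LE Γ u x u' x') (γ : Γ) :
    LE Γ u (γ • x) u' (γ • x') := by
  refine ⟨fun δ => ?_, fun δ => ?_, fun δ => ?_, fun δ ε => ?_⟩
  · rw [sle_right, sle_right, ← mul_smul, ← mul_smul]
    exact h.a _
  · rw [sle_left, sle_left, ← mul_smul, ← mul_smul]
    exact h.b _
  · rw [ex_smul γ, ex_smul γ (fun r => r ≤ γ • x' ∧ r ≤ δ • u')]
    simp only [sle]
    simp only [sle_left (γ := γ), ← mul_smul]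
    exact h.e _
  · rw [ex_smul γ, ex_smul γ (fun r => r ≤ γ • x' ∧ r ≤ δ • u' ∧ ¬ r ≤ ε • u')]
    simp only [sle]
    simp only [sle_left (γ := γ), ← mul_smul]
    exact h.d _ _

theorem le_sl {u p q : X} {u' p' q' : X'} (h : LE Γ u p u' p') (h' : LE Γ u q u' q') :
    SL Γ u p q ↔ SL Γ u' p' q' := by
  constructor
  · intro h1
    exact ⟨⟨fun γ => ((h.a γ).symm.trans (h1.a γ)).trans (h'.a γ),
      fun γ => ((h.e γ).symm.trans (h1.e γ)).trans (h'.e γ),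
      fun γ δ => ((h.d γ δ).symm.trans (h1.d γ δ)).trans (h'.d γ δ)⟩,
      fun γ => ((h.b γ).symm.trans (h1.b γ)).trans (h'.b γ)⟩
  · intro h1
    exact ⟨⟨fun γ => ((h.a γ).trans (h1.a γ)).trans (h'.a γ).symm,
      fun γ => ((h.e γ).trans (h1.e γ)).trans (h'.e γ).symm,
      fun γ δ => ((h.d γ δ).trans (h1.d γ δ)).trans (h'.d γ δ).symm⟩,
      fun γ => ((h.b γ).trans (h1.b γ)).trans (h'.b γ).symm⟩

theorem le_of_sl {u p x : X} {u' p' x' : X'} (h : LE Γ u p u' p') (h1 : SL Γ u p x)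
    (h2 : SL Γ u' p' x') : LE Γ u x u' x' :=
  ⟨fun γ => ((h1.a γ).symm.trans (h.a γ)).trans (h2.a γ),
    fun γ => ((h1.b γ).symm.trans (h.b γ)).trans (h2.b γ),
    fun γ => ((h1.e γ).symm.trans (h.e γ)).trans (h2.e γ),
    fun γ δ => ((h1.d γ δ).symm.trans (h.d γ δ)).trans (h2.d γ δ)⟩

end two

theorem t_GD (h1 : S_EQV) (h2 : S_TYP) (h3 : S_STAR) : S_GD := by
  intro Γ X X' _ _ _ _ _ _ _ u v u' v' φ hφ _ hle hsm x0 hx0 hg hg' hL x hx
  obtain ⟨-, e2, e3, -, -⟩ := h1 Γ X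
  have hE := e2 u v x0 hx0
  have hsm0 : ∀ γ : Γ, γ • x0 ∈ OB Γ u v := fun γ => (e3 u v x0 γ).2 hx0
  have hdd : DD Γ u x0 ↔ DD Γ u' (φ x0) := exists_congr fun γ => hL.b γ
  have hx' := hx
  rw [← hE, mem_OB] at hx'
  by_cases hd : DD Γ u x0
  · rcases hx' with ⟨γ, rfl⟩ | ⟨γ, r, hr1, -, hr3⟩ | ⟨s, hs, hs0, hsx⟩
    · rw [hsm γ x0 hx0]
      exact le_smul hL γ
    · exact absurd ((hd.smul γ).le hr1) hr3
    · have hxx : IN Γ u x0 x := (h3 Γ X u s x0 x0 hs hd hs0 (in_self hd hs0) x).1 hsx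
      obtain ⟨γ, δ, hS, hp, hq⟩ := hxx
      have hp' : γ • φ x0 ≤ φ x := by
        rw [← hsm γ x0 hx0]
        exact (hle _ (hsm0 γ) _ hx).1 hp
      have hq' : ¬ δ • φ x0 ≤ φ x := by
        rw [← hsm δ x0 hx0]
        exact fun h4 => hq ((hle _ (hsm0 δ) _ hx).2 h4)
      have hS' : SL Γ u' (γ • φ x0) (δ • φ x0) := (le_sl (le_smul hL γ) (le_smul hL δ)).1 hS
      have hR := rl_of_sep hS hp hq
      have hR' := rl_of_sep hS' hp' hq'
      have hP := le_smul hL γ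
      refine ⟨fun η => ((hR.a η).symm.trans (hP.a η)).trans (hR'.a η), fun η => ?_,
        fun η => ((hR.e η).symm.trans (hP.e η)).trans (hR'.e η),
        fun η ε => ((hR.d η ε).symm.trans (hP.d η ε)).trans (hR'.d η ε)⟩
      rw [b_of_sep hS hp hq, b_of_sep hS' hp' hq']
      refine and_congr (hP.b η) (exists_congr fun ρ => and_congr
        (le_sl (le_smul hL ρ) hP) ?_)
      rw [← hsm ρ x0 hx0]
      exact hle _ hx _ (hsm0 ρ)
  · have hE0 : ∀ z ∈ OB Γ u v, ¬ DD Γ u z := hg.resolve_left hd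
    have hE0' : ∀ z ∈ OB Γ u' v', ¬ DD Γ u' z := hg'.resolve_left fun h4 => hd (hdd.2 h4)
    rcases hx' with ⟨γ, rfl⟩ | ⟨γ, r, hr1, hr2, hr3⟩ | ⟨s, hs, hs0, hsx⟩
    · rw [hsm γ x0 hx0]
      exact le_smul hL γ
    · have hrE : r ∈ OB Γ u v := by
        rw [← hE, mem_OB]
        exact Or.inr (Or.inl ⟨γ, r, hr1, le_rfl, hr3⟩)
      have hr' := hE0' _ (hφ r hrE)
      have h5 : φ r ≤ γ • φ x0 := by
        rw [← hsm γ x0 hx0]
        exact (hle _ hrE _ (hsm0 γ)).1 hr1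
      have h6 : φ r ≤ φ x := (hle _ hrE _ hx).1 hr2
      exact le_of_sl (le_smul hL γ) (sl_of_above hr3 hr1 hr2) (sl_of_above hr' h5 h6)
    · exfalso
      obtain ⟨t1, -, -, t4, -, -⟩ := h2 Γ X u x0
      have h5 := t4 s x0 hs hs0
      have h6 : s ∈ OB Γ u x0 := by
        rw [t1 s hs hs0]
        exact h5
      rw [hE] at h6
      exact hE0 s h6 hs

end Pool.Agent.Y960.TF
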